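import Pool.Agent.helper54.GR3.Spec
import Pool.Agent.helper64.ILF.Region98

set_option autoImplicit false

open Complex Metric Set Filter Topology MeasureTheory
open MPS (om)
open PPS (pre TT fd)
open XPS (Df er dens tau)
open Pool.Agent.helper16.Multibrot

noncomputable section

namespace GR

theorem GL3F_ne0 (n : ℕ) (c : ℂ) (hn : 2 ≤ n)
    (hA : ¬ Pool.Agent.helper98.ILF.HasAttractingCycle (fun z : ℂ => z ^ n + c)) (j : ℕ)
    (hj : 1 ≤ j) : Z n c j ≠ 0 := by
  intro h
  apply hA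
  refine ⟨0, j, hj, h, ?_⟩
  obtain ⟨k, rfl⟩ : ∃ k, j = k + 1 := ⟨j - 1, by omega⟩
  have hd : ∀ m : ℕ, Differentiable ℂ ((fun z : ℂ => z ^ n + c)^[m]) := by
    intro m
    induction m with
    | zero => simp
    | succ m ih =>
      rw [Function.iterate_succ]
      exact ih.comp (by fun_prop)
  have h0 : HasDerivAt (fun z : ℂ => z ^ n + c) 0 0 := by
    have h1 := ((hasDerivAt_pow n (0 : ℂ)).add_const c)
    have h2 : (n : ℂ) * (0 : ℂ) ^ (n - 1) = 0 := by
      rw [zero_pow (by omega), mul_zero]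
    rwa [h2] at h1
  have h3 := ((hd k) ((fun z : ℂ => z ^ n + c) 0)).hasDerivAt.comp (0 : ℂ) h0
  rw [mul_zero] at h3
  rw [Function.iterate_succ]
  rw [h3.deriv]
  simp

theorem GL3F_mono (x X : ℝ) (hx : 1 ≤ x) (hX : x ≤ X) :
    (1 + Real.log X) * x ≤ X * (1 + Real.log x) := by
  have hx0 : 0 < x := by linarith
  have hX0 : 0 < X := by linarith
  have h1 : Real.log (X / x) ≤ X / x - 1 := Real.log_le_sub_one_of_pos (by positivity)
  rw [Real.log_div hX0.ne' hx0.ne'] at h1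
  have h2 : 0 ≤ Real.log x := Real.log_nonneg hx
  have h3 : 0 ≤ (X - x) * Real.log x := mul_nonneg (by linarith) h2
  have h4 : (Real.log X - Real.log x) * x ≤ X - x := by
    have := mul_le_mul_of_nonneg_right h1 hx0.le
    calc (Real.log X - Real.log x) * x ≤ (X / x - 1) * x := this
      _ = X - x := by field_simp
  nlinarith

/-- GL3F: THEOREM G for line fields, `n ≥ 3`. -/
theorem GL3F (hCORE : COR3_stmt) (hLFZ : LFZ_stmt) (hLFD : LFD_stmt) (hBDM : BDM_stmt)
    (hNAT : NAT_stmt) (hCTB : NLF.CTB_stmt) (hNZ : NLF.NZ_stmt) (hLFI : NLF.LFI_stmt) :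
    GL3_stmt := by
  obtain ⟨K₀, hK₀, hcore⟩ := hCORE
  obtain ⟨C, hC, hlfd⟩ := hLFD
  refine ⟨max (K₀ * max C 80) 160, fun n hn c μ hμ p hp x hx hxj => ?_⟩
  have hn2 : 2 ≤ n := by omega
  obtain ⟨-, hLF, hpos, hnA⟩ := hLFI n c μ hn2 hμ
  have hM : c ∈ multibrot n := (Pool.Agent.helper64.ILF98.posArea_subset hn2
    (Pool.Agent.helper64.ILF98.lineField_mem ⟨μ, hμ⟩)).1
  have hb := hBDM n c hn2 hM
  have hne := GL3F_ne0 n c hn2 hnA
  have hac : NLF.CT μ c ≠ 0 := hNZ n c μ hn2 hLF hpos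
  have hac0 : 0 < ‖NLF.CT μ c‖ := norm_pos_iff.2 hac
  have hac80 : ‖NLF.CT μ c‖ ≤ 80 := (hCTB μ hLF.meas hLF.bd hLF.supp).2.1 c
  have hlx : 0 ≤ Real.log x := Real.log_nonneg hx
  show ‖NLF.CT μ c‖ * x ≤ max (K₀ * max C 80) 160 * (1 + Real.log x)
  rcases lt_or_ge x 2 with hx2 | hx2
  · have h1 : (160 : ℝ) ≤ max (K₀ * max C 80) 160 := le_max_right _ _
    calc ‖NLF.CT μ c‖ * x ≤ 80 * 2 := by gcongr
      _ ≤ max (K₀ * max C 80) 160 * 1 := by linarith
      _ ≤ max (K₀ * max C 80) 160 * (1 + Real.log x) := by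
          apply mul_le_mul_of_nonneg_left (by linarith) (by linarith)
  · -- the previous closest return
    obtain ⟨q, hq, hqmin⟩ := Finset.exists_min_image (Finset.Icc 1 (p - 1))
      (fun j => ‖Z n c j‖) ⟨1, by simp; omega⟩
    rw [Finset.mem_Icc] at hq
    have hZp : 0 < ‖Z n c p‖ := norm_pos_iff.2 (hne p (by omega))
    have hZq : 0 < ‖Z n c q‖ := norm_pos_iff.2 (hne q hq.1)
    have hxq := hxj q hq.1 (by omega)
    have hXx : x ≤ X n c p q := by
      unfold X
      rw [le_div_iff₀ hZp]; exact hxq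
    have h2pq : 2 * ‖Z n c p‖ ≤ ‖Z n c q‖ := by nlinarith
    have hc2 : ‖c‖ ≤ 2 := by
      have := hb 1
      rwa [(hNAT n c hn2).2.2.2.2.2.1] at this
    have hR : Ret n c p q :=
      { hn := hn2
        hc := hc2
        le2 := fun j _ _ => hb j
        ne0 := fun j h1 _ => hne j h1
        q1 := hq.1
        qp := by omega
        mn := fun j h1 h2 => hqmin j (Finset.mem_Icc.2 ⟨h1, by omega⟩)
        lt := by linarith }
    obtain ⟨hR0, -, hX1, -, hA, -, -⟩ := (hNAT n c hn2).2.2.2.2.2.2.2.2.2.2 p q hR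
    have hAp := hA p (by omega) (by omega)
    have hAq := hA q (by omega) (by omega)
    obtain ⟨ha0, hS⟩ := hLFZ n c μ hn2 hLF
    have hSp := hS p (by omega) (fun i h1 _ => hne i h1)
    have hSq := hS q hq.1 (fun i h1 _ => hne i h1)
    have hdq := hlfd n c μ hLF ha0 (Z n c p) (Z n c q) (hne p (by omega)) h2pq
    have hC'1 : 80 ≤ max C 80 := le_max_right _ _
    have hC'2 : C ≤ max C 80 := le_max_left _ _
    have hκ : 1 ≤ max C 80 / ‖NLF.CT μ c‖ := by
      rw [one_le_div hac0]; linarith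
    have hlX : 0 ≤ Real.log (X n c p q) := Real.log_nonneg hX1.le
    have key : S n c p - lam n c p q * S n c q = Z n c p / (A n c p * NLF.CT μ c) *
        (NLF.CT μ (Z n c p) / Z n c p - NLF.CT μ (Z n c q) / Z n c q) := by
      rw [hSp, hSq]
      unfold lam
      have e1 := hne p (by omega)
      have e2 := hne q hq.1
      field_simp
    have hmain := hcore n hn c p q (max C 80 / ‖NLF.CT μ c‖) hR hκ (by
      rw [key, norm_mul, norm_div, norm_mul]
      calc ‖Z n c p‖ / (‖A n c p‖ * ‖NLF.CT μ c‖) *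
            ‖NLF.CT μ (Z n c p) / Z n c p - NLF.CT μ (Z n c q) / Z n c q‖
          ≤ ‖Z n c p‖ / (‖A n c p‖ * ‖NLF.CT μ c‖) *
            (C * (1 + Real.log (‖Z n c q‖ / ‖Z n c p‖))) := by gcongr
        _ ≤ ‖Z n c p‖ / (‖A n c p‖ * ‖NLF.CT μ c‖) *
            (max C 80 * (1 + Real.log (‖Z n c q‖ / ‖Z n c p‖))) := by
            have : 0 ≤ 1 + Real.log (‖Z n c q‖ / ‖Z n c p‖) := by
              have : 0 ≤ Real.log (‖Z n c q‖ / ‖Z n c p‖) := hlX
              linarith
            gcongr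
        _ = max C 80 / ‖NLF.CT μ c‖ * (‖Z n c p‖ / ‖A n c p‖) *
            (1 + Real.log (X n c p q)) := by
            have hAp' : ‖A n c p‖ ≠ 0 := norm_ne_zero_iff.2 hAp
            unfold X
            field_simp)
    have h5 : ‖NLF.CT μ c‖ * X n c p q ≤ K₀ * max C 80 * (1 + Real.log (X n c p q)) := by
      calc ‖NLF.CT μ c‖ * X n c p q ≤ ‖NLF.CT μ c‖ *
            (K₀ * (max C 80 / ‖NLF.CT μ c‖) * (1 + Real.log (X n c p q))) := by gcongr
        _ = K₀ * max C 80 * (1 + Real.log (X n c p q)) := by field_simp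
    have h6 := GL3F_mono x (X n c p q) hx hXx
    have hX0 : 0 < X n c p q := by linarith
    have hKC : 0 ≤ K₀ * max C 80 := by positivity
    have h7 : ‖NLF.CT μ c‖ * x ≤ K₀ * max C 80 * (1 + Real.log x) := by
      have h8 : (‖NLF.CT μ c‖ * x) * X n c p q ≤
          (K₀ * max C 80 * (1 + Real.log x)) * X n c p q := by
        calc (‖NLF.CT μ c‖ * x) * X n c p q = (‖NLF.CT μ c‖ * X n c p q) * x := by ring
          _ ≤ (K₀ * max C 80 * (1 + Real.log (X n c p q))) * x := by gcongr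
          _ = (K₀ * max C 80) * ((1 + Real.log (X n c p q)) * x) := by ring
          _ ≤ (K₀ * max C 80) * (X n c p q * (1 + Real.log x)) := by gcongr
          _ = (K₀ * max C 80 * (1 + Real.log x)) * X n c p q := by ring
      exact le_of_mul_le_mul_right h8 hX0
    refine h7.trans ?_
    have : 0 ≤ 1 + Real.log x := by linarith
    gcongr
    exact le_max_left _ _

end GR
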